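import Pool.Agent.TH178.HI.GDesc

set_option autoImplicit false

/-! # Double covers with quadratic equations are regularly unirational

Let `k` be any field of characteristic zero and let `f` be a polynomial in `t_1, ..., t_n` of degree
at most two in each variable. If `w² = f(t_1, ..., t_n)` has one smooth `k`-point, then its
function field can be embedded over `k`, relatively algebraically closed, in a field of rational
functions: a smooth projective model is dominated by a projective space by a rational map whose
generic fibre is geometrically irreducible.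
-/

open MvPolynomial

namespace Pool.Agent.Results.MP_87f965_ag.RegularlyUnirational

/-- `K` is the function field of the double cover `w² = f(t_1, ..., t_n)`: it is generated over `k`
by algebraically independent elements `t_1, ..., t_n` and an element `w` with this property. -/
def IsCoverField (k : Type) [Field k] {n : ℕ} (f : MvPolynomial (Fin n) k) (K : Type) [Field K]
    [Algebra k K] : Prop :=
  ∃ (t : Fin n → K) (w : K), AlgebraicIndependent k t ∧ w ^ 2 = aeval t f ∧
    IntermediateField.adjoin k (insert w (Set.range t)) = ⊤

/-- There is a smooth `k`-point on `w² = f(t_1, ..., t_n)`. -/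
def HasSmoothPoint {k : Type} [Field k] {n : ℕ} (f : MvPolynomial (Fin n) k) : Prop :=
  ∃ (b : Fin n → k) (c : k), c ^ 2 = eval b f ∧ (c ≠ 0 ∨ ∃ i, eval b (pderiv i f) ≠ 0)

/-- `K` embeds over `k` in the field of rational functions in some finite number of variables, such
that all elements of the latter which are algebraic over the image are in the image. -/
def RegularlyUnirational (k K : Type) [Field k] [Field K] [Algebra k K] : Prop :=
  ∃ (N : ℕ) (φ : K →ₐ[k] FractionRing (MvPolynomial (Fin N) k)),
    ∀ z : FractionRing (MvPolynomial (Fin N) k), IsAlgebraic φ.fieldRange z → z ∈ φ.fieldRange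

/-- Being algebraic over the image of an embedding. -/
lemma alg_iff {k K M : Type} [Field k] [Field K] [Algebra k K] [Field M] [Algebra k M]
    (φ : K →ₐ[k] M) (z : M) : IsAlgebraic φ.fieldRange z ↔
      ∃ p : Polynomial K, p ≠ 0 ∧ p.eval₂ (φ : K →+* M) z = 0 := by
  let e : K ≃ₐ[k] φ.fieldRange := AlgEquiv.ofInjectiveField φ
  have he : ∀ a, algebraMap φ.fieldRange M (e a) = φ a := fun a => rfl
  constructor
  · rintro ⟨p, hp, h0⟩
    refine ⟨p.map (e.symm : φ.fieldRange →+* K), ?_, ?_⟩
    · rwa [Ne, Polynomial.map_eq_zero]
    · rw [Polynomial.eval₂_map]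
      rw [Polynomial.aeval_def] at h0
      rw [← h0]
      congr 1
      ext u
      obtain ⟨a, rfl⟩ := e.surjective u
      show φ (e.symm (e a)) = _
      rw [AlgEquiv.symm_apply_apply, he]
  · rintro ⟨p, hp, h0⟩
    refine ⟨p.map (e : K →+* φ.fieldRange), ?_, ?_⟩
    · rwa [Ne, Polynomial.map_eq_zero]
    · rw [Polynomial.aeval_def, Polynomial.eval₂_map, ← h0]
      congr 1

/-- From the intrinsic form to the field of rational functions. -/
lemma of_realizable {k K : Type} [Field k] [Field K] [Algebra k K]
    (h : Pool.Agent.TH178.HI.Realizable k K) : RegularlyUnirational k K := by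
  classical
  obtain ⟨E, _, _, Ω, y, ⟨ι, hι, x, hx, hΩ⟩, hle, hcl⟩ := h
  haveI := Fintype.ofFinite ι
  let e0 : ι ≃ Fin (Fintype.card ι) := Fintype.equivFin ι
  let x' : Fin (Fintype.card ι) → E := x ∘ e0.symm
  have hx' : AlgebraicIndependent k x' := hx.comp e0.symm e0.symm.injective
  have hr : Set.range x' = Set.range x := by
    rw [Set.range_comp, e0.symm.surjective.range_eq, Set.image_univ]
  have hadj : IntermediateField.adjoin k (Set.range x') = Ω := by rw [hr, hΩ]
  let e1 := hx'.aevalEquivField
  let j : FractionRing (MvPolynomial (Fin (Fintype.card ι)) k) →ₐ[k] E :=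
    (IntermediateField.val _).comp e1.toAlgHom
  have hjΩ : ∀ z, j z ∈ Ω := by
    intro z
    rw [← hadj]
    exact (e1 z).2
  have hle' : y.fieldRange ≤ IntermediateField.adjoin k (Set.range x') := by rw [hadj]; exact hle
  let φ : K →ₐ[k] FractionRing (MvPolynomial (Fin (Fintype.card ι)) k) :=
    (e1.symm.toAlgHom.comp (IntermediateField.inclusion hle')).comp
      (AlgEquiv.ofInjectiveField y).toAlgHom
  have hjφ : ∀ a, j (φ a) = y a := by
    intro a
    show ((e1 (e1.symm (IntermediateField.inclusion hle' (AlgEquiv.ofInjectiveField y a))) :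
      IntermediateField.adjoin k (Set.range x')) : E) = y a
    rw [AlgEquiv.apply_symm_apply]
    rfl
  refine ⟨Fintype.card ι, φ, fun z hz => ?_⟩
  rw [alg_iff] at hz
  obtain ⟨p, hp, h0⟩ := hz
  have h1 : p.eval₂ (y : K →+* E) (j z) = 0 := by
    have h2 := Polynomial.hom_eval₂ p (φ : K →+* _) (j : _ →+* E) z
    have h3 : ((j : FractionRing (MvPolynomial (Fin (Fintype.card ι)) k) →+* E).comp
        (φ : K →+* FractionRing (MvPolynomial (Fin (Fintype.card ι)) k))) = (y : K →+* E) := by
      ext a
      exact hjφ a
    rw [h3, h0, map_zero] at h2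
    exact h2.symm
  obtain ⟨a, ha⟩ := hcl (j z) (hjΩ z) ((alg_iff y (j z)).2 ⟨p, hp, h1⟩)
  refine ⟨a, ?_⟩
  apply j.injective
  exact (hjφ a).trans ha

/-- **Regular unirationality of double covers.** Let `k` be a field of characteristic zero and `f` a
polynomial in `n` variables over `k`, of degree at most two in each of them, such that
`w² = f(t_1, ..., t_n)` has a smooth `k`-point. Then the function field of this double cover embeds
over `k`, relatively algebraically closed, in a field of rational functions over `k`. -/
theorem result (k : Type) [Field k] [CharZero k] (n : ℕ) (f : MvPolynomial (Fin n) k)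
    (hdeg : ∀ i, degreeOf i f ≤ 2) (hs : HasSmoothPoint f) (K : Type) [Field K] [Algebra k K]
    (hK : IsCoverField k f K) : RegularlyUnirational k K :=
  of_realizable (Pool.Agent.TH178.HI.realizable_smooth f hdeg hs K hK)

end Pool.Agent.Results.MP_87f965_ag.RegularlyUnirational
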